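import Pool.Agent.J6H31.GA.StmW

/-!
# Semisimplicity of Frobenius at the Tate eigenvalue: algebraic classes, signs and branch strata

Let `𝒳` be a smooth projective surface, or more generally a smooth projective variety of dimension
`2 m`, over the finite field `κ` with `q` elements (`m = 1` for surfaces), `G` a finite abelian group of
automorphisms of `𝒳` over `κ` whose order is a power of a prime `p` which does not divide `q`, and
`Y = 𝒳 / G`. Assume that `G` acts trivially on the cohomology of `𝒳` in the degrees different from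
`2 m` (for surfaces: on `H¹`). Let `Z_1, …, Z_r` be closed subvarieties of `Y` with inertia groups
`I_1, …, I_r`: the stabilizer of a point `x` of `𝒳` is generated by the `I_j` with `π(x) ∈ Z_j`. For a
character `χ` of `G` let `H_χ` be the part of `H = H^{2m}(𝒳̄, ℚ̄_ℓ)` on which `G` acts by `χ` (`ℓ = p` is
allowed), let `J(χ)` be the set of the `j` with `χ` nontrivial on `I_j`, and

`m(χ) = ∑_{A ⊆ J(χ)} (-1) ^ |A| μ(Z_A)`,

`μ(Z_A)` being the order of the pole at `T = q ^ (-m)` of the zeta function of `Z_A = ⋂_{j ∈ A} Z_j`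
modulo `p` (`Z_∅ = Y`). Let `N ⊆ H` be the span of classes of algebraic cycles of codimension `m` over
`κ`, or any other subspace on which Frobenius is `q ^ m`, which is stable under `G` and on which the
intersection pairing is nondegenerate (for surfaces: the span of all divisor classes has these
properties, by the Hodge index theorem; `N = 0` is allowed), and let `ρ(χ)` be the dimension of
`N_χ`. Let `δ(χ) = 1` if `p = 2`, `χ² = 1` and the determinant of Frobenius on `H_χ` is
`-q ^ (m dim)` (the sign of the functional equation), and `δ(χ) = 0` otherwise.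

Theorem. Let `χ ≠ 1` in (1) and (2).
(1) The multiplicity of the eigenvalue `q ^ m` of Frobenius on `H_χ` is at most `m(χ) - δ(χ)`.
(2) Let `e ≥ 1`. If `m(χ) - δ(χ) - ρ(χ) ≤ e`, or if `χ² = 1`, `e` is odd and
`m(χ) - δ(χ) - ρ(χ) ≤ e + 1`, then the Jordan blocks of Frobenius on `H_χ` for the eigenvalue `q ^ m`
have size at most `e`.
(3) If the condition in (2) holds with `e = 1` for all `χ ≠ 1`, and Frobenius is semisimple at the
eigenvalue `q ^ m` on `H^G = H^{2m}(Ȳ)`, then it is semisimple at `q ^ m` on `H`. For surfaces: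
`dim H²(𝒳̄, ℚ_ℓ(1))^{Frob} = - ord_{s=1} ζ(𝒳, s)`.
(4) Let `red_χ` be the quotient of the polynomials of the zeta functions of the `Z_A`, `A ⊆ J(χ)`,
modulo `p` (congruent to the characteristic polynomial of Frobenius on `H_χ` modulo all places above
`p`). If for each `χ ≠ 1` we have `red_χ = (1 - q ^ m T) ^ j R` with `R` squarefree and not zero at
`q ^ (-m)`, and `j ≤ ρ(χ) + 1`, or `χ² = 1` and `j ≤ ρ(χ) + 2`, and if Frobenius is semisimple on
`H^G`, then it is semisimple on `H`.

Example: let `𝒳 : y² = F(x₀, x₁, x₂)` be a double plane with smooth branch curve `Z : F = 0`, and `P` the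
numerator of the zeta function of `Z`; `m(χ) = 1 + μ` with the multiplicity `μ` of the root `1` of `P`
modulo `2`. So Frobenius is semisimple at the eigenvalue `q` not only if the class number `P(1)` is odd
(`μ = 0`, `m(χ) = 1`), but also if `μ = 2` and either the sign is `-1` (it depends only on the
discriminant of `F`) or there is a divisor on `𝒳` whose class is not invariant (for example if a line
or conic over `κ` splits). The Tate conjecture is not known in these cases; the Jordan blocks have size
at most `1 + μ` in general.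

Proof. The multiplicity of a residue class of eigenvalues on `H_χ` modulo a place above `p` is
determined by the zeta functions of the strata (as in MP_93fb11_ag.AbelianPCoverings). Let `M` be the
orthogonal complement of `N_(1/χ)` in the generalized eigenspace on `H_χ`; a Jordan block of size `e + 1`
gives `e + 1` independent vectors in `M`. If `χ² = 1`, then `M` is an orthogonal space with the
isometry `q ^ (-m) Φ`, and if its dimension `e + 1` is even, then it cannot consist of a single
Jordan block. If the sign is `-1`, then `-q ^ m` is an eigenvalue, which is congruent to `q ^ m`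
modulo `2`. In (4) the eigenvalues `α ≠ ± q ^ m` on `H_χ` with `χ² = 1` come in pairs.
-/

set_option autoImplicit false
set_option linter.unusedVariables false

namespace Pool.Agent.Results.MP_1fe969_ag.AlgebraicClassesAndSigns

open Finset Polynomial Module Pool.Agent.J6H31.GA

/-- Semisimplicity of Frobenius at the Tate eigenvalue for actions of abelian `p`-groups. -/
theorem result {p s q m r : ℕ} [Fact p.Prime] (hq : ¬ p ∣ q) {G : Type} [CommGroup G]
    [Fintype G] (hG : ∀ g : G, g ^ p ^ s = 1) {K : Covering G} {E : Type} [Field E] [CharZero E]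
    [IsAlgClosed E] (D : Arrangement K E r) (H : Middle K (2 * m) q E) (N : Submodule E H.V)
    (hN : H.IsAlg N) :
    -- (1) the multiplicity
    (∀ χ : G →* E, χ ≠ 1 → (H.mult χ ((q : E) ^ m) + H.sgn p χ : ℕ) ≤ D.tateMult p q m χ) ∧
    -- (2) Jordan blocks
    (∀ (χ : G →* E) (e : ℕ), χ ≠ 1 → 1 ≤ e → H.Small D p N χ e → H.Kills χ e) ∧
    -- (3) semisimplicity at the eigenvalue `q ^ m`
    ((∀ χ : G →* E, χ ≠ 1 → H.Small D p N χ 1) → H.Kills 1 1 → H.SemisimpleAt) ∧
    -- (4) semisimplicity
    ((∀ χ : G →* E, χ ≠ 1 → H.Mild D p N χ) → (H.part 1).IsSemisimple → H.Φ.IsSemisimple) := by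
  classical
  have hp : p.Prime := Fact.out
  have hq0 : (q : E) ≠ 0 := by
    intro h0
    have h1 : q = 0 := by exact_mod_cast h0
    rw [h1] at hq
    exact hq (dvd_zero p)
  have hα0 : (q : E) ^ m ≠ 0 := pow_ne_zero _ hq0
  have hs : ∀ x y, H.B x y = H.B y x := fun x y => by
    rw [H.isPairing.symm x y, (even_two_mul m).neg_one_pow, one_mul]
  have hΦ2 : ∀ x y, H.B (H.Φ x) (H.Φ y) = ((q : E) ^ m) ^ 2 * H.B x y := fun x y => by
    rw [H.isPairing.frob x y, ← pow_mul, mul_comm m 2]
  have h1 : ∀ χ : G →* E, χ ≠ 1 →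
      (H.mult χ ((q : E) ^ m) + H.sgn p χ : ℕ) ≤ D.tateMult p q m χ := fun χ hχ =>
    gen_bound hq hG D rfl H.isMiddle H.B H.isPairing.nondeg H.group H.isPairing.frob hχ rfl
  have hrestr : ∀ χ : G →* E, ∀ x : eig H.ρ χ, x ∈ (H.part χ).maxGenEigenspace ((q : E) ^ m) ↔
      x.1 ∈ H.Φ.maxGenEigenspace ((q : E) ^ m) := by
    intro χ x
    have h2 : (H.part χ).maxGenEigenspace ((q : E) ^ m)
        = (H.Φ.maxGenEigenspace ((q : E) ^ m)).comap (eig H.ρ χ).subtype :=
      Module.End.genEigenspace_restrict H.Φ (eig H.ρ χ) ⊤ _ (mapsTo_eig H.isMiddle.comm χ)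
    rw [h2]
    rfl
  have hpow : ∀ (χ : G →* E) (e : ℕ) (x : eig H.ρ χ),
      (((H.part χ - ((q : E) ^ m) • (1 : Module.End E (eig H.ρ χ))) ^ e) x : H.V)
        = ((H.Φ - ((q : E) ^ m) • (1 : Module.End E H.V)) ^ e) x.1 := by
    intro χ e
    induction e with
    | zero => intro x; rfl
    | succ e ih =>
      intro x
      rw [pow_succ, pow_succ]
      exact ih ((H.part χ - ((q : E) ^ m) • (1 : Module.End E (eig H.ρ χ))) x)
  have h2 : ∀ (χ : G →* E) (e : ℕ), χ ≠ 1 → 1 ≤ e → H.Small D p N χ e → H.Kills χ e := by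
    intro χ e hχ he hsm x hx
    apply Subtype.ext
    rw [hpow]
    have h3 := h1 χ hχ
    push_cast at h3
    refine jordan_bound H.B H.isPairing.nondeg hs hα0 H.isMiddle.comm H.group hΦ2 hN χ he ?_ x.1
      ⟨(hrestr χ x).1 hx, x.2⟩
    have h4 : (H.mult χ ((q : E) ^ m) : ℤ)
        = (finrank E (H.Φ.maxGenEigenspace ((q : E) ^ m) ⊓ eig H.ρ χ : Submodule E H.V) : ℤ) := rfl
    have h5 : (H.rank N χ : ℤ) = (finrank E (N ⊓ eig H.ρ χ : Submodule E H.V) : ℤ) := rfl
    rcases hsm with h6 | ⟨h6, h7, h8⟩
    · left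
      rw [h4] at h3
      rw [h5] at h6
      omega
    · right
      refine ⟨h6, h7, ?_⟩
      rw [h4] at h3
      rw [h5] at h8
      omega
  refine ⟨h1, h2, ?_, ?_⟩
  · intro hall hY
    refine le_antisymm ?_ ((H.Φ.genEigenspace _).mono le_top)
    have h3 := isotypic (ρ := H.ρ) (H.Φ.maxGenEigenspace ((q : E) ^ m)) (fun g v hv =>
      Module.End.mapsTo_maxGenEigenspace_of_comm (H.isMiddle.comm g) _ hv)
    refine h3.trans (iSup_le fun χ => ?_)
    intro x hx
    have hk : H.Kills χ 1 := by
      by_cases hχ : χ = 1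
      · rw [hχ]
        exact hY
      · exact h2 χ 1 hχ le_rfl (hall χ hχ)
    have h4 := hk ⟨x, hx.2⟩ ((hrestr χ ⟨x, hx.2⟩).2 hx.1)
    have h5 := congrArg Subtype.val h4
    rw [hpow, pow_one] at h5
    rw [Module.End.mem_eigenspace_iff]
    exact sub_eq_zero.1 h5
  · intro hall hY
    refine semisimple_of_parts H.isMiddle.comm fun χ γ => ?_
    by_cases hχ : χ = 1
    · rw [hχ]
      exact le_of_eq (hY.isFinitelySemisimple.maxGenEigenspace_eq_eigenspace γ)
    · obtain ⟨j, hj1, hj2⟩ := hall χ hχ
      exact full_part hq hG D rfl H.isMiddle H.B H.isPairing.nondeg hs H.group H.isPairing.frob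
        hχ rfl hN hj1 hj2 γ

end Pool.Agent.Results.MP_1fe969_ag.AlgebraicClassesAndSigns
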