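import Pool.Agent.J6H2.NV.Log

/-!
# Semisimplicity of Frobenius on `H²` of fibred surfaces: arbitrary families of curves, on average

Let `F` be a finite field with `q` elements, `m ≥ 0`, and `𝒞` any family of smooth projective curves of
genus `g` over an open part of the affine space `𝔸¹ × 𝔸^m` over `F`, with coordinates `t` and
`a_1, …, a_m` (for instance all hyperelliptic or plane curves of a given degree, the `a_i` being all the
coefficients, or any subfamily). Polynomials `D_1, …, D_m` in `t` over `F` define the surface `S_D` over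
the projective line fibred in the curves `𝒞(t, D_1(t), …, D_m(t))`. Let
`H = H_D = H¹(ℙ¹, j_* R¹) ⊂ H²(S_D)`; the complement of `H` is spanned by the classes of curves, so that
Frobenius is semisimple on `H²(S_D)` if and only if the nilpotent part `n_D` of its Jordan decomposition
on `H` vanishes.

For `D_1, …, D_m` of degree less than `N` we prove, with constants `c, C > 0` which do not depend on
`q`, `m`, `N`:

* (weak form) for every `ev` of absolute value `q`, in particular for the Tate eigenvalue `q`, the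
  multiplicity of `ev` on `H_D` (and the number of the eigenvalues in the disc of radius `q / N` around
  it) is at least `R` for at most `C R^(-c R) q^(m N)` of the `D`; hence the same holds for the
  difference of the dimensions of the generalized eigenspace and of the eigenspace, which is
  `- ord_{s = 1} ζ(S_D, s) - dim H²(S_D)^{Fr = q}` for `ev = q`;
* on average over all `D` the rank of `n_D ^ R` is at most `C R^(-c R) N`, and `n_D ^ R = 0` for all but
  `C R^(-c R) N q^(m N)` of the `D`, for all but `N^(-B) q^(m N)` of them if `R ≥ A log N / log log N`.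

The only condition on the family is that its Jacobian has no part which is constant along the affine
spaces `𝔸^m` over the points `t`; it enters through Deligne's estimate of the mean of the traces.
-/

set_option autoImplicit false

namespace Pool.Agent.Results.MP_1fe969_ag.FamiliesOfCurves

open Polynomial

/-- The points of the affine space of dimension `m` over the residue ring `F[t] ⧸ P`. -/
abbrev Residues (F : Type) [Field F] (m : ℕ) (P : F[X]) : Type := Fin m → F[X] ⧸ Ideal.span {P}

/-- A family of curves of genus `g` over an open part of `𝔸¹ × 𝔸^m`, through its Frobenius eigenvalues.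
A closed point of `𝔸¹` is a monic irreducible polynomial `P`, and the points of `𝔸^m` over its residue
field are the elements of `Residues F m P`. -/
structure CurveFamily (F : Type) [Field F] (m g c : ℕ) where
  /-- finitely many closed points of `𝔸¹`, which are left out -/
  bad : Finset F[X]
  /-- the points with a smooth fibre -/
  smooth : ∀ P : F[X], Set (Residues F m P)
  /-- the eigenvalues of Frobenius on `H¹` of the fibre -/
  loc : ∀ P : F[X], Residues F m P → Fin (2 * g) → ℂ
  norm_loc : ∀ P, P.Monic → Irreducible P → P ∉ bad → ∀ a ∈ smooth P, ∀ i,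
    ‖loc P a i‖ = √(Nat.card F) ^ P.natDegree
  /-- The sum of the traces over the smooth fibres above `P` is minus the alternating sum of the traces
  of Frobenius on the cohomology with compact support of `R¹` on the open part of `𝔸^m`, whose weights
  are at most `2 m` if `H^{2 m}_c` vanishes, that is if the Jacobian has no constant part there. -/
  mean : ∀ P, P.Monic → Irreducible P → P ∉ bad →
    ‖∑ᶠ (a : Residues F m P) (_ : a ∈ smooth P), ∑ i, loc P a i‖ ≤ c * (Nat.card F : ℝ) ^ (m * P.natDegree)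

/-- The residues of the polynomials `D i` modulo `P`. -/
noncomputable def residues {F : Type} [Field F] {m : ℕ} (D : Fin m → F[X]) (P : F[X]) : Residues F m P :=
  fun i => Ideal.Quotient.mk (Ideal.span {P}) (D i)

/-- The closed points of degree `e` of the affine line over which the fibre of the surface `S_D` is a
smooth member of the family. -/
def goodPlaces {F : Type} [Field F] {m g c : ℕ} (X₀ : CurveFamily F m g c) (D : Fin m → F[X]) (e : ℕ) :
    Set F[X] :=
  {P | P.Monic ∧ Irreducible P ∧ P.natDegree = e ∧ P ∉ X₀.bad ∧ residues D P ∈ X₀.smooth P}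

/-- The sum over the closed points `P` of `U` of degree `e` dividing `n`, and over the eigenvalues `x` of
Frobenius at `P`, of `e x ^ (n / e)`: the sum of the traces at the points of `U` over the extension of
degree `n` of `F`. -/
noncomputable def traceSum {F : Type} [Field F] {m g c : ℕ} (X₀ : CurveFamily F m g c) (D : Fin m → F[X])
    (n : ℕ) : ℂ :=
  ∑ e ∈ n.divisors, ∑ᶠ P ∈ goodPlaces X₀ D e, (e : ℂ) * ∑ i, X₀.loc P (residues D P) i ^ (n / e)

/-- Frobenius on a space `H`, through its matrix `Φ` in a basis, with coefficients embedded in `ℂ`, and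
a nilpotent endomorphism commuting with it. -/
structure Frobenius where
  /-- the dimension of `H` -/
  dim : ℕ
  /-- the eigenvalues of Frobenius on `H` -/
  α : Fin dim → ℂ
  /-- the matrix of Frobenius on `H` -/
  Φ : Matrix (Fin dim) (Fin dim) ℂ
  charpoly_Φ : Φ.charpoly = ∏ i, (X - C (α i))
  /-- a nilpotent endomorphism of `H` -/
  nil : Matrix (Fin dim) (Fin dim) ℂ
  isNilpotent_nil : IsNilpotent nil
  commute_nil : Commute Φ nil

/-- Frobenius on the cohomology of the surface `S_D`, with a nilpotent endomorphism commuting with it.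
The number `∑ α i ^ n + ∑ β j ^ n` is the trace of the `n`-th power of Frobenius on `H¹_c(U, R¹)`, `U` the
open part of the affine line with the closed points `goodPlaces X₀ D`, the `α i` being the eigenvalues
on the quotient `H = H¹(ℙ¹, j_* R¹)`, which is pure of weight two and a subspace of `H²(S_D)`, the `β j`
the other eigenvalues; and `formula` is the trace formula (if `H²_c(U, R¹) = 0`). -/
structure SurfaceModule {F : Type} [Field F] {m g c : ℕ} (X₀ : CurveFamily F m g c) (D : Fin m → F[X])
    (K : ℝ) extends Frobenius where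
  /-- the number of the other eigenvalues -/
  dim' : ℕ
  /-- the other eigenvalues -/
  β : Fin dim' → ℂ
  size : (dim : ℝ) ≤ K ∧ (dim' : ℝ) ≤ K
  norm_α : ∀ i, ‖α i‖ = Nat.card F
  norm_β : ∀ j, ‖β j‖ ≤ √(Nat.card F)
  formula : ∀ n : ℕ, 1 ≤ n → ∑ i, α i ^ n + ∑ j, β j ^ n = -traceSum X₀ D n

/-- The number of the eigenvalues of Frobenius on `H` at distance at most `δ` from `ev` (for `δ = 0`
the dimension of the generalized eigenspace). -/
noncomputable def Frobenius.cluster (E : Frobenius) (ev : ℂ) (δ : ℝ) : ℕ :=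
  {i | ‖E.α i - ev‖ ≤ δ}.ncard

/-- The dimension of the generalized eigenspace for `ev` minus the dimension of the eigenspace, which is
`dim - rank (Φ - ev)`. -/
noncomputable def Frobenius.defect (E : Frobenius) (ev : ℂ) : ℕ :=
  E.cluster ev 0 - (E.dim - (E.Φ - ev • 1).rank)

/-- The sum of the dimensions of the generalized eigenspaces of dimension at least `R` of Frobenius. -/
noncomputable def Frobenius.large (E : Frobenius) (R : ℕ) : ℕ :=
  {i | R ≤ {j | E.α j = E.α i}.ncard}.ncard

/-- For every `ev` of absolute value `q` the number of the `D` in `T` with at least `R` eigenvalues in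
the disc of radius `q / N` around `ev`, the number of the `D` for which the multiplicity of `ev` is at
least `R`, and the number of the `D` for which it exceeds the dimension of the eigenspace by at least
`R`, are at most `b`. -/
structure Tails {T : Type} (E : T → Frobenius) (q N R : ℕ) (b : ℝ) : Prop where
  cluster : ∀ ev : ℂ, ‖ev‖ = q → ({D | R ≤ (E D).cluster ev (q / N)}.ncard : ℝ) ≤ b
  multiplicity : ∀ ev : ℂ, ‖ev‖ = q → ({D | R ≤ (E D).cluster ev 0}.ncard : ℝ) ≤ b
  weakForm : ∀ ev : ℂ, ‖ev‖ = q → ({D | R ≤ (E D).defect ev}.ncard : ℝ) ≤ b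

/-- The total dimension of the generalized eigenspaces of dimension at least `R`, the total rank of the
`R`-th powers of the nilpotent endomorphisms, and the number of the `D` in `T` for which this power is
not zero, are at most `b`. -/
structure SmallOn {T : Type} [Fintype T] (E : T → Frobenius) (R : ℕ) (b : ℝ) : Prop where
  eigenspaces : (∑ D, ((E D).large R : ℝ)) ≤ b
  ranks : (∑ D, (((E D).nil ^ R).rank : ℝ)) ≤ b
  exceptions : ({D | (E D).nil ^ R ≠ 0}.ncard : ℝ) ≤ b

/-- A finite field `F`, a family of curves with `m` parameters, and the Frobenius modules of the surfaces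
`S_D` for the `D` in a finite set `S` of `m`-tuples of polynomials of degree less than `N`; the
dimensions are at most `κ N`. -/
structure Surfaces (g c : ℕ) (κ : ℝ) where
  F : Type
  [field : Field F]
  [finite : Finite F]
  m : ℕ
  X₀ : CurveFamily F m g c
  N : ℕ
  one_le : 1 ≤ N
  S : Finset (Fin m → F[X])
  degree_lt : ∀ D ∈ S, ∀ i, (D i).degree < N
  E : ∀ D : S, SurfaceModule X₀ D.1 (κ * N)

attribute [instance] Surfaces.field Surfaces.finite

/-- Frobenius on `H_D` for the `D` in the set `S`. -/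
noncomputable def Surfaces.frob {g c : ℕ} {κ : ℝ} (s : Surfaces g c κ) (D : s.S) : Frobenius :=
  (s.E D).toFrobenius

/-- The number `q` of elements of the field. -/
noncomputable def Surfaces.q {g c : ℕ} {κ : ℝ} (s : Surfaces g c κ) : ℕ := Nat.card s.F

/-- The number `q ^ (m N)` of all `m`-tuples of polynomials of degree less than `N`. -/
noncomputable def Surfaces.total {g c : ℕ} {κ : ℝ} (s : Surfaces g c κ) : ℝ :=
  (s.q : ℝ) ^ (s.m * s.N)

section proofs

open Pool.Agent.J6H2.NV
open Pool.Agent.J6H2.NP (rk rk_bounds IR mem_IR bigIdx nearIdx sqrt_rk card_rk rank_pow_le ED)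

section
variable {F : Type} [Field F] [Fintype F] {m g c : ℕ}

open Classical in
/-- the normalised local function -/
noncomputable def fn (X₀ : CurveFamily F m g c) (P : F[X]) (a : Residues F m P) : ℂ :=
  if P ∉ X₀.bad ∧ a ∈ X₀.smooth P then ((rk F ^ (1 * P.natDegree) : ℝ) : ℂ) * ∑ i, X₀.loc P a i else 0

lemma fn_le (X₀ : CurveFamily F m g c) (P : F[X]) (h1 : P.Monic) (h2 : Irreducible P)
    (a : Residues F m P) : ‖fn X₀ P a‖ ≤ (2 * g : ℕ) := by
  obtain ⟨r0, r1⟩ := rk_bounds F
  unfold fn
  split_ifs with h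
  · have h3 : ‖∑ i, X₀.loc P a i‖ ≤ (2 * g : ℕ) * (rk F ^ (1 * P.natDegree))⁻¹ := by
      refine (norm_sum_le _ _).trans
        ((Finset.sum_le_sum (g := fun _ => (rk F ^ (1 * P.natDegree))⁻¹) fun i _ => ?_).trans ?_)
      · rw [X₀.norm_loc P h1 h2 h.1 a h.2 i, Nat.card_eq_fintype_card, one_mul, sqrt_rk]
      · rw [Finset.sum_const, Finset.card_univ, Fintype.card_fin, nsmul_eq_mul]
    rw [norm_mul, Complex.norm_real, Real.norm_eq_abs, abs_of_nonneg (by positivity)]
    refine (mul_le_mul_of_nonneg_left h3 (by positivity)).trans (le_of_eq ?_)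
    field_simp
  · rw [norm_zero]
    positivity

lemma card_res {P : F[X]} (h1 : P.Monic) :
    (Nat.card (Residues F m P) : ℝ) = (Fintype.card F : ℝ) ^ (m * P.natDegree) := by
  have := Pool.Agent.N430.BP.FF.fin_quot h1
  have h2 : Nat.card (F[X] ⧸ Ideal.span {P}) = Fintype.card F ^ P.natDegree := by
    rw [← Nat.card_eq_fintype_card (α := F)]
    have e : (AdjoinRoot P) = (F[X] ⧸ Ideal.span {P}) := rfl
    rw [← e, Nat.card_congr (AdjoinRoot.powerBasis' h1).basis.equivFun.toEquiv, Nat.card_fun,
      Nat.card_eq_fintype_card (α := Fin _), Fintype.card_fin]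
    rfl
  rw [Nat.card_fun, h2, Nat.card_eq_fintype_card (α := Fin m), Fintype.card_fin, ← pow_mul, mul_comm]
  push_cast
  rfl

lemma mu_fn_le (X₀ : CurveFamily F m g c) (P : F[X]) (h1 : P.Monic) (h2 : Irreducible P) :
    ‖mu (fn X₀) P‖ ≤ c * rk F ^ P.natDegree := by
  classical
  obtain ⟨r0, r1⟩ := rk_bounds F
  have hfin := Pool.Agent.N430.BP.FF.fin_quot h1
  let _ := Fintype.ofFinite (Residues F m P)
  have hq0 : (0 : ℝ) < Fintype.card F := by exact_mod_cast Fintype.card_pos
  unfold mu
  have hc : ((Nat.card (Residues F m P) : ℕ) : ℂ) =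
      (((Fintype.card F : ℝ) ^ (m * P.natDegree) : ℝ) : ℂ) := by
    rw [← card_res h1]
    push_cast
    rfl
  show ‖(∑ᶠ a, fn X₀ P a) / ((Nat.card (Residues F m P) : ℕ) : ℂ)‖ ≤ _
  rw [hc, norm_div, Complex.norm_real, Real.norm_eq_abs, abs_of_nonneg (by positivity),
    div_le_iff₀ (by positivity)]
  by_cases hb : P ∈ X₀.bad
  · have : ∀ a, fn X₀ P a = 0 := fun a => by
      unfold fn
      rw [if_neg]
      exact fun h => h.1 hb
    simp only [this, finsum_zero, norm_zero]
    positivity
  · have h3 := X₀.mean P h1 h2 hb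
    have h4 : ∑ᶠ a, fn X₀ P a = ((rk F ^ P.natDegree : ℝ) : ℂ) *
        ∑ᶠ (a : Residues F m P) (_ : a ∈ X₀.smooth P), ∑ i, X₀.loc P a i := by
      rw [finsum_eq_sum_of_fintype, finsum_eq_sum_of_fintype, Finset.mul_sum]
      refine Finset.sum_congr rfl fun a _ => ?_
      unfold fn
      rw [finsum_eq_if]
      by_cases ha : a ∈ X₀.smooth P
      · rw [if_pos ⟨hb, ha⟩, if_pos ha, one_mul]
      · rw [if_neg (fun h => ha h.2), if_neg ha, mul_zero]
    rw [h4, norm_mul, Complex.norm_real, Real.norm_eq_abs, abs_of_nonneg (by positivity)]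
    rw [Nat.card_eq_fintype_card] at h3
    calc rk F ^ P.natDegree * ‖∑ᶠ (a : Residues F m P) (_ : a ∈ X₀.smooth P), ∑ i, X₀.loc P a i‖ ≤
        rk F ^ P.natDegree * (c * (Fintype.card F : ℝ) ^ (m * P.natDegree)) :=
          mul_le_mul_of_nonneg_left h3 (by positivity)
      _ = _ := by ring

/-- the data for the engine -/
noncomputable def SurfaceModule.toED {X₀ : CurveFamily F m g c} {D : Fin m → F[X]} {K : ℝ}
    (E : SurfaceModule X₀ D K) : ED (fun P => tt (fn X₀) P D) (2 * (2 * g : ℕ) + c) K :=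
  edOf (w := 1) (r := 2 * g) (c := c) (good := fun P => P ∉ X₀.bad ∧ residues D P ∈ X₀.smooth P)
    (loc := fun P => X₀.loc P (residues D P))
    (fun P h1 h2 h3 i => by
      rw [X₀.norm_loc P h1 h2 h3.1 _ h3.2 i, Nat.card_eq_fintype_card, one_mul]) E.α E.β E.size.1 E.size.2
    (fun i => by
      rw [E.norm_α i, Nat.card_eq_fintype_card]
      exact (Real.sq_sqrt (Nat.cast_nonneg _)).symm)
    (fun j => by
      have := E.norm_β j
      rw [Nat.card_eq_fintype_card] at this
      rwa [pow_one])
    (fun n hn => by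
      classical
      rw [E.formula n hn]
      congr 1
      unfold traceSum
      refine Finset.sum_congr rfl fun e _ => ?_
      have h1 : goodPlaces X₀ D e = (((IR F e).filter
          (fun P => P ∉ X₀.bad ∧ residues D P ∈ X₀.smooth P) : Finset F[X]) : Set F[X]) := by
        ext P
        unfold goodPlaces
        rw [Finset.mem_coe, Finset.mem_filter, mem_IR]
        constructor
        · rintro ⟨a, b, c, d, e⟩
          exact ⟨⟨a, b, c⟩, d, e⟩
        · rintro ⟨⟨a, b, c⟩, d, e⟩
          exact ⟨a, b, c, d, e⟩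
      rw [h1, finsum_mem_coe_finset]
      exact Finset.sum_congr (by ext P; simp only [Finset.mem_filter]) fun _ _ => rfl)
    (mu (fn X₀)) (mu_fn_le X₀) _ (fun P => by
      unfold tt
      congr 1
      unfold fn tg
      by_cases h : P ∉ X₀.bad ∧ residues D P ∈ X₀.smooth P
      · rw [if_pos h, if_pos (by exact h)]
        rfl
      · rw [if_neg h, if_neg (by exact h)])

lemma mult_card {D : ℕ} (α : Fin D → ℂ) (R : ℕ) :
    {i | R ≤ {j | α j = α i}.ncard}.ncard =
      (open Classical in Finset.univ.filter fun i =>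
        R ≤ (Finset.univ.filter fun j => α j = α i).card : Finset (Fin D)).card := by
  classical
  have h1 : ∀ i, {j | α j = α i}.ncard = (Finset.univ.filter fun j => α j = α i).card := by
    intro i
    rw [← Set.ncard_coe_finset]
    congr 1
    ext j
    simp
  simp_rw [h1]
  rw [← Set.ncard_coe_finset]
  congr 1
  ext i
  simp

variable {X₀ : CurveFamily F m g c} {D : Fin m → F[X]} {K : ℝ}

lemma large_eq (E : SurfaceModule X₀ D K) (R : ℕ) :
    E.toFrobenius.large R = (bigIdx E.toED R).card := by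
  classical
  unfold Frobenius.large
  rw [mult_card]
  unfold bigIdx
  have hr : ((rk F ^ (1 + 1) : ℝ) : ℂ) ≠ 0 := by
    obtain ⟨r0, r1⟩ := rk_bounds F
    have : rk F ^ (1 + 1) ≠ 0 := by positivity
    exact_mod_cast this
  have hu : ∀ i j : Fin E.dim, E.toED.u j = E.toED.u i ↔ E.α j = E.α i := by
    intro i j
    constructor
    · intro h
      exact mul_right_cancel₀ hr h
    · intro h
      show E.α j * _ = E.α i * _
      rw [h]
  congr 1
  ext i
  simp only [Finset.mem_filter, Finset.mem_univ, true_and]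
  have e : (Finset.univ.filter fun j => E.α j = E.α i) =
      (Finset.univ.filter fun j : Fin E.dim => E.toED.u j = E.toED.u i) := by
    ext j
    simp only [Finset.mem_filter, Finset.mem_univ, true_and]
    exact (hu i j).symm
  rw [e]
  constructor
  · intro h
    exact Finset.mem_filter.2 ⟨Finset.mem_univ _, h⟩
  · intro h
    exact (Finset.mem_filter.1 h).2

lemma cluster_le (E : SurfaceModule X₀ D K) {N : ℕ} {ev : ℂ} :
    E.toFrobenius.cluster ev (Nat.card F / N) ≤ (nearIdx E.toED N (ev * ((rk F ^ (1 + 1) : ℝ) : ℂ))).card := by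
  classical
  obtain ⟨r0, r1⟩ := rk_bounds F
  have h : ∀ i : Fin E.toED.D, ‖E.α i - ev‖ ≤ Nat.card F / N →
      i ∈ nearIdx E.toED N (ev * ((rk F ^ (1 + 1) : ℝ) : ℂ)) := by
    intro i hi
    unfold nearIdx
    refine Finset.mem_filter.2 ⟨Finset.mem_univ _, ?_⟩
    show ‖E.α i * ((rk F ^ (1 + 1) : ℝ) : ℂ) - ev * ((rk F ^ (1 + 1) : ℝ) : ℂ)‖ ≤ 1 / N
    rw [← sub_mul, norm_mul, Complex.norm_real, Real.norm_eq_abs, abs_of_nonneg (by positivity)]
    refine (mul_le_mul_of_nonneg_right hi (by positivity)).trans (le_of_eq ?_)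
    have h1 := card_rk (k := F) 1
    rw [pow_one] at h1
    rw [Nat.card_eq_fintype_card, h1]
    have h2 : rk F ^ (2 * 1) = rk F ^ (1 + 1) := rfl
    rw [h2]
    have h3 : rk F ^ (1 + 1) ≠ 0 := by positivity
    field_simp
  have e : ((nearIdx E.toED N (ev * ((rk F ^ (1 + 1) : ℝ) : ℂ)) : Finset (Fin E.toED.D)) :
      Set (Fin E.toED.D)).ncard = (nearIdx E.toED N (ev * ((rk F ^ (1 + 1) : ℝ) : ℂ))).card :=
    Set.ncard_coe_finset _
  rw [← e]
  unfold Frobenius.cluster
  exact Set.ncard_le_ncard (fun i hi => h i hi) (Finset.finite_toSet _)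

omit [Fintype F] in
lemma rank_le (E : Frobenius) (R : ℕ) : (E.nil ^ R).rank ≤ E.large R := by
  classical
  have h1 := rank_pow_le (Matrix.toLin' E.Φ) (Matrix.toLin' E.nil) (α := E.α)
    (by rw [Matrix.charpoly_toLin', E.charpoly_Φ])
    (by
      have := E.commute_nil.map (Matrix.toLinAlgEquiv' (R := ℂ) (n := Fin E.dim))
      exact this)
    (by
      obtain ⟨m, hm⟩ := E.isNilpotent_nil
      refine ⟨m, ?_⟩
      rw [← Matrix.toLin'_pow, hm, map_zero]) R
  have h2 : (E.nil ^ R).rank = Module.finrank ℂ (LinearMap.range ((Matrix.toLin' E.nil) ^ R)) := by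
    rw [← Matrix.toLin'_pow]
    rfl
  rw [h2]
  refine h1.trans ?_
  unfold Frobenius.large
  rw [mult_card]
  refine Finset.card_le_card fun i hi => ?_
  rw [Finset.mem_filter] at hi ⊢
  exact ⟨Finset.mem_univ _, (Nat.le_succ R).trans hi.2⟩

lemma rank_zero {D : ℕ} {M : Matrix (Fin D) (Fin D) ℂ} (h : M.rank = 0) : M = 0 := by
  have h1 : LinearMap.range M.mulVecLin = ⊥ := Submodule.finrank_eq_zero.1 h
  rw [LinearMap.range_eq_bot] at h1
  have h2 : Matrix.toLin' M = Matrix.toLin' 0 := by
    rw [map_zero]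
    exact h1
  exact (Matrix.toLin' (R := ℂ)).injective h2

end

section
variable {F : Type} [Field F] [Fintype F] {m g c : ℕ} {X₀ : CurveFamily F m g c} {K : ℝ}

lemma small_of (S : Finset (Fin m → F[X])) (E : ∀ D : S, SurfaceModule X₀ D.1 K) (R : ℕ) (b : ℝ)
    (h : (∑ D, ((bigIdx (E D).toED R).card : ℝ)) ≤ b) : SmallOn (fun D => (E D).toFrobenius) R b := by
  classical
  have h1 : (∑ D, ((E D).toFrobenius.large R : ℝ)) ≤ b := by
    refine le_trans (le_of_eq ?_) h
    exact Finset.sum_congr rfl fun D _ => by rw [large_eq]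
  have h2 : (∑ D, (((E D).nil ^ R).rank : ℝ)) ≤ b := by
    refine (Finset.sum_le_sum fun D _ => ?_).trans h1
    exact_mod_cast rank_le (E D).toFrobenius R
  refine ⟨h1, h2, le_trans ?_ h2⟩
  have h3 : {D | (E D).nil ^ R ≠ 0} = ((Finset.univ.filter fun D => (E D).nil ^ R ≠ 0 :
      Finset S) : Set S) := by
    ext D
    simp
  show ({D | (E D).nil ^ R ≠ 0}.ncard : ℝ) ≤ _
  rw [h3, Set.ncard_coe_finset, Finset.card_eq_sum_ones]
  push_cast
  rw [Finset.sum_filter]
  refine Finset.sum_le_sum fun D _ => ?_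
  split_ifs with h4
  · have h5 : 1 ≤ ((E D).nil ^ R).rank := by
      rw [Nat.one_le_iff_ne_zero]
      intro h6
      exact h4 (rank_zero h6)
    exact_mod_cast h5
  · positivity

lemma tails_of (S : Finset (Fin m → F[X])) (E : ∀ D : S, SurfaceModule X₀ D.1 K) (N R : ℕ) (b : ℝ)
    (h : ∀ z : ℂ, ‖z‖ = 1 → (((open Classical in Finset.univ.filter fun D : S =>
      R ≤ (nearIdx (E D).toED N z).card : Finset S)).card : ℝ) ≤ b) :
    Tails (fun D => (E D).toFrobenius) (Nat.card F) N R b := by
  classical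
  have hcl : ∀ ev : ℂ, ‖ev‖ = Nat.card F →
      ({D | R ≤ (E D).toFrobenius.cluster ev (Nat.card F / N)}.ncard : ℝ) ≤ b := by
    intro ev hev
    obtain ⟨r0, r1⟩ := rk_bounds F
    have hz : ‖ev * ((rk F ^ (1 + 1) : ℝ) : ℂ)‖ = 1 := by
      have h1 := card_rk (k := F) 1
      rw [pow_one] at h1
      rw [norm_mul, hev, Complex.norm_real, Real.norm_eq_abs, abs_of_nonneg (by positivity),
        Nat.card_eq_fintype_card, h1]
      exact inv_mul_cancel₀ (by positivity)
    refine le_trans ?_ (h _ hz)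
    have : {D | R ≤ (E D).toFrobenius.cluster ev (Nat.card F / N)}.ncard ≤
        (Finset.univ.filter fun D : S =>
        R ≤ (nearIdx (E D).toED N (ev * ((rk F ^ (1 + 1) : ℝ) : ℂ))).card).card := by
      rw [← Set.ncard_coe_finset]
      refine Set.ncard_le_ncard (fun D (hD : R ≤ (E D).toFrobenius.cluster ev (Nat.card F / N)) => ?_)
        (Finset.finite_toSet _)
      rw [Finset.mem_coe, Finset.mem_filter]
      exact ⟨Finset.mem_univ _, le_trans hD (cluster_le (E D))⟩
    exact_mod_cast this
  have hm : ∀ ev : ℂ, ‖ev‖ = Nat.card F →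
      ({D | R ≤ (E D).toFrobenius.cluster ev 0}.ncard : ℝ) ≤ b := by
    intro ev hev
    refine le_trans ?_ (hcl ev hev)
    have : {D | R ≤ (E D).toFrobenius.cluster ev 0}.ncard ≤
        {D | R ≤ (E D).toFrobenius.cluster ev (Nat.card F / N)}.ncard := by
      refine Set.ncard_le_ncard (fun D (hD : R ≤ (E D).toFrobenius.cluster ev 0) => ?_) (Set.toFinite _)
      show R ≤ (E D).toFrobenius.cluster ev (Nat.card F / N)
      refine hD.trans (Set.ncard_le_ncard (fun i (hi : ‖(E D).α i - ev‖ ≤ 0) => ?_) (Set.toFinite _))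
      show ‖(E D).α i - ev‖ ≤ Nat.card F / N
      refine hi.trans ?_
      positivity
    exact_mod_cast this
  refine ⟨hcl, hm, fun ev hev => ?_⟩
  refine le_trans ?_ (hm ev hev)
  have : {D | R ≤ (E D).toFrobenius.defect ev}.ncard ≤
      {D | R ≤ (E D).toFrobenius.cluster ev 0}.ncard := by
    refine Set.ncard_le_ncard (fun D (hD : R ≤ (E D).toFrobenius.defect ev) => ?_) (Set.toFinite _)
    show R ≤ (E D).toFrobenius.cluster ev 0
    exact le_trans hD (Nat.sub_le _ _)
  exact_mod_cast this

end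

end proofs

/-- **Frobenius on `H²` of the surfaces fibred in curves of an arbitrary family, on average.** -/
theorem result (g c : ℕ) (κ : ℝ) (hκ : 1 ≤ κ) :
    (∃ c' C : ℝ, 0 < c' ∧ 0 < C ∧ ∀ (s : Surfaces g c κ) (R : ℕ), 1 ≤ R →
      Tails s.frob s.q s.N R (C * (R : ℝ) ^ (-(c' * R)) * s.total) ∧
      SmallOn s.frob R (C * (R : ℝ) ^ (-(c' * R)) * s.N * s.total)) ∧
    (∀ B : ℝ, 0 < B → ∃ A : ℝ, 0 < A ∧ ∀ (s : Surfaces g c κ) (R : ℕ), 16 ≤ s.N →
      A * Real.log s.N / Real.log (Real.log s.N) ≤ R →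
        SmallOn s.frob R ((s.N : ℝ) ^ (-B) * s.total)) := by
  classical
  obtain ⟨c₁, C₁, hc₁, hC₁, H₁⟩ := Pool.Agent.J6H2.NV.mult_avg (2 * (2 * g) + c + 3) (by omega) hκ
  obtain ⟨c₂, C₂, hc₂, hC₂, H₂⟩ := Pool.Agent.J6H2.NV.tail_avg (2 * (2 * g) + c + 3) (by omega) hκ
  have hdata : ∀ (F : Type) [Field F] [Fintype F] (m : ℕ) (X₀ : CurveFamily F m g c),
      Pool.Agent.J6H2.NV.Sys (Pool.Agent.J6H2.NV.tt (fn X₀)) ((2 * (2 * g) + c + 3 : ℕ) : ℝ) := by
    intro F _ _ m X₀
    refine Pool.Agent.J6H2.NV.sys_of (b := (2 * g : ℕ)) ?_ (fn_le X₀)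
    push_cast
    have : (0 : ℝ) ≤ c := Nat.cast_nonneg c
    linarith
  have hG0 : (0 : ℝ) ≤ 2 * (2 * g : ℕ) + c := by positivity
  have hG1 : (2 * (2 * g : ℕ) + c : ℝ) ≤ 2 * ((2 * (2 * g) + c + 3 : ℕ) : ℝ) := by
    push_cast
    have : (0 : ℝ) ≤ c := Nat.cast_nonneg c
    have : (0 : ℝ) ≤ g := Nat.cast_nonneg g
    linarith
  have key : ∀ (F : Type) [Field F] [Finite F] (m : ℕ) (X₀ : CurveFamily F m g c) (N : ℕ), 1 ≤ N →
      ∀ S : Finset (Fin m → F[X]), (∀ D ∈ S, ∀ i, (D i).degree < N) →
      ∀ (E : ∀ D : S, SurfaceModule X₀ D.1 (κ * N)), ∀ R : ℕ, 1 ≤ R →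
        Tails (fun D => (E D).toFrobenius) (Nat.card F) N R
          (C₂ * (R : ℝ) ^ (-(c₂ * R)) * (Nat.card F : ℝ) ^ (m * N)) ∧
        SmallOn (fun D => (E D).toFrobenius) R
          (C₁ * (R : ℝ) ^ (-(c₁ * R)) * N * (Nat.card F : ℝ) ^ (m * N)) := by
    intro F _ _ m X₀ N hN S hS E R hR
    have : Fintype F := Fintype.ofFinite F
    have hinj : Function.Injective (fun (D : S) (i : Fin m) =>
        (⟨D.1 i, mem_degreeLT.2 (hS D.1 D.2 i)⟩ : degreeLT F N)) := by
      intro D D' h
      apply Subtype.ext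
      funext i
      exact congrArg (fun z : degreeLT F N => (z : F[X])) (congrFun h i)
    have e1 : (Nat.card F : ℝ) ^ (m * N) = (Fintype.card F : ℝ) ^ (Fintype.card (Fin m) * N) := by
      rw [Nat.card_eq_fintype_card, Fintype.card_fin]
    rw [e1]
    constructor
    · apply tails_of
      intro z hz
      exact H₂ F (Fin m) N hN _ (hdata F m X₀) _ hG0 hG1 R hR S _ hinj (fun D => (E D).toED) z hz
    · apply small_of
      exact H₁ F (Fin m) N hN _ (hdata F m X₀) _ hG0 hG1 R hR S _ hinj (fun D => (E D).toED)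
  refine ⟨⟨min c₁ c₂, max C₁ C₂, lt_min hc₁ hc₂, lt_max_of_lt_left hC₁, ?_⟩, fun B hB => ?_⟩
  · intro s R hR
    obtain ⟨h1, h2⟩ := key s.F s.m s.X₀ s.N s.one_le s.S s.degree_lt s.E R hR
    have hq : 0 ≤ s.total := by
      unfold Surfaces.total Surfaces.q
      positivity
    have hR1 : (1 : ℝ) ≤ R := by exact_mod_cast hR
    have hle : ∀ c₀ C₀ : ℝ, 0 < C₀ → C₀ ≤ max C₁ C₂ → min c₁ c₂ ≤ c₀ →
        C₀ * (R : ℝ) ^ (-(c₀ * R)) ≤ max C₁ C₂ * (R : ℝ) ^ (-(min c₁ c₂ * R)) := by
      intro c₀ C₀ h3 h4 h5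
      refine mul_le_mul h4 ?_ (by positivity) (h3.le.trans h4)
      apply Real.rpow_le_rpow_of_exponent_le hR1
      have := mul_le_mul_of_nonneg_right h5 (by positivity : (0 : ℝ) ≤ R)
      linarith
    have g2 := mul_le_mul_of_nonneg_right (hle c₂ C₂ hC₂ (le_max_right _ _) (min_le_right _ _)) hq
    have g1 := mul_le_mul_of_nonneg_right (mul_le_mul_of_nonneg_right
      (hle c₁ C₁ hC₁ (le_max_left _ _) (min_le_left _ _)) (Nat.cast_nonneg s.N)) hq
    exact ⟨⟨fun ev hev => (h1.cluster ev hev).trans g2, fun ev hev => (h1.multiplicity ev hev).trans g2,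
      fun ev hev => (h1.weakForm ev hev).trans g2⟩,
      ⟨h2.eigenspaces.trans g1, h2.ranks.trans g1, h2.exceptions.trans g1⟩⟩
  · obtain ⟨A, hA, hA'⟩ := Pool.Agent.J6H2.NV.log_choice hc₁ hC₁ hB
    refine ⟨A, hA, fun s R hN hR => ?_⟩
    obtain ⟨h1, h2⟩ := hA' s.N R hN hR
    have h3 := (key s.F s.m s.X₀ s.N s.one_le s.S s.degree_lt s.E R h1).2
    have h4 : C₁ * (R : ℝ) ^ (-(c₁ * R)) * s.N * (Nat.card s.F : ℝ) ^ (s.m * s.N) ≤
        (s.N : ℝ) ^ (-B) * s.total :=
      mul_le_mul_of_nonneg_right h2 (by positivity)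
    exact ⟨h3.eigenspaces.trans h4, h3.ranks.trans h4, h3.exceptions.trans h4⟩

end Pool.Agent.Results.MP_1fe969_ag.FamiliesOfCurves
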