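import Pool.Agent.J6H2.SF.Main2

/-!
# MP_1fe969_ag: multiplicities and Jordan blocks of Frobenius for almost all surfaces in space
-/

set_option autoImplicit false

open Module

namespace Pool.Agent.Results.MP_1fe969_ag.SurfacesInSpace

open J6H2.SF J6H2.SFD

/-- **Eigenvalues of Frobenius on the second cohomology of almost all surfaces of degree `d`.**
Let `F` be a finite field with `q` elements. For the polynomials `f ∈ F[x, y, z]` of degree at most
`d` in a set `S` (for instance those which define a smooth projective surface `X` with smooth plane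
section at infinity, a positive proportion of all `f`) let `V` be the primitive part of `H²(X)` with
its Frobenius `Φ`, and `B` the eigenvalues of Frobenius on `H¹` of the curve at infinity
(`SurfaceModule`); let `dim V ≤ b` and `#B ≤ b'` for all `f ∈ S`.

* If `b ≤ d³` and `b' ≤ d²`, which holds for the smooth surfaces of degree `d` in projective
  space, then all multiplicities and all Jordan blocks of Frobenius are at most `3 d² + 10 d`, for all
  `f ∈ S` with at most `14 / d³ #{all polynomials of degree ≤ d}` exceptions, while `b₂ ∼ d³`. The field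
  `F` may be fixed.
* Let `1 ≤ N ≤ (d + 1) / 2`. For all `R > 0` all multiplicities and all Jordan blocks are at most
  `(b + 5 b') / N + R`, with at most `14 N / R² #{all polynomials of degree ≤ d}` exceptions. For every
  choice of an eigenvalue `z` for every `f ∈ S` (for instance `z = q`) the average of its multiplicity
  is at most `(b + 5 b') / N + 4 √N`. -/
theorem result {F : Type} [Field F] [Finite F] {d b b' : ℕ} (hd : 1 ≤ d)
    (𝓢 : Surfaces F d b b') :
    (b ≤ d ^ 3 → b' ≤ d ^ 2 → 𝓢.AlmostAll (14 / (d : ℝ) ^ 3) (3 * d ^ 2 + 10 * d)) ∧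
    ∀ N : ℕ, 1 ≤ N → 2 * N ≤ d + 1 →
      (∀ R : ℝ, 0 < R → 𝓢.AlmostAll (14 * N / R ^ 2) ((b + 5 * b') / N + R)) ∧
      ∀ z : MvPolynomial (Fin 3) F → ℂ,
        𝓢.total z ≤ ((b + 5 * b') / N + 4 * Real.sqrt N) * (surfaces F d).ncard :=
  res hd 𝓢

end Pool.Agent.Results.MP_1fe969_ag.SurfacesInSpace
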