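import Pool.Agent.J6H90.SL.Dim

/-!
# Semisimplicity of Frobenius on the second cohomology of surfaces with a given transcendental part

Let `X` be a smooth projective surface over a number field `K`, `V = H^2(X, ℚ_ℓ)`, `A ⊆ V` the
subspace spanned by the classes (with the twist) of the divisors over an algebraic closure of `K`, or
of a set of divisors stable under the Galois group which contains an ample one, and `A'` the orthogonal
complement of `A` for the cup product. By the Hodge index theorem `V = A ⊕ A'`; both subspaces are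
stable under the Galois group, and an open subgroup acts on `A` through the inverse of the cyclotomic
character. Let `W` be the realisation of a motive of weight `2` over `K`, of rank `m ≥ 2`, `m ≥ dim A'`,
which is absolutely irreducible on all open subgroups: for example the transcendental part of `H^2` of
a K3 surface `Y` whose Hodge structure has no endomorphisms but the rational numbers (the Galois group
is then open in a group of orthogonal similitudes). At the places `v` outside a finite set the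
difference `a_v` of the traces of the geometric Frobenius elements on `V` and `W` is a rational number
and `|a_v| ≤ C N(v)` (Deligne; Katz and Messing). Suppose that `d a_v ^ 2` is a multiple of `N(v) ^ 2`
(`d` a positive integer) for the places `v` in a set of *positive* upper density; the part `A`
contributes multiples of `N(v)`, so this is a congruence between the traces on `A'` and on `W`.

Then `dim A' = m`, `A'` and `W` are isomorphic representations of an open subgroup of the Galois group
(so that `A` contains the classes of all divisors), the Galois representation `V` is semisimple, and every element of the Galois group which is diagonalisable (over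
an algebraic closure of `ℚ_ℓ`) on `W` is diagonalisable on `V`. In particular, the Frobenius is
diagonalisable on the `H^2` of the surfaces `X_v` over finite fields, for *every* place `v` of good
reduction of `X` not above `ℓ` at which the Frobenius is diagonalisable on `W` (in the example: if
`Y` has good reduction at `v`, by Deligne's theorem on K3 surfaces). Nothing is assumed about the
Galois representation `A'` but `dim A' ≤ m` and the congruences.

Proof. The numbers `κ = a_v N(v) ^ (-u)` with the congruence lie in a finite set. So the Frobenius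
elements of a set of places of positive upper density lie in a finite union of closed sets
`Z_κ = {g | tr V(g⁻¹) - tr W(g⁻¹) = κ c(g) ^ u}`, `c` the cyclotomic character; by Chebotarev's
theorem one `Z_κ` has positive Haar measure. It fills a coset `g N` of an open normal subgroup up to
a set of small relative measure, and as the translates of the function
`tr V(g⁻¹) - tr W(g⁻¹) - κ c(g) ^ u` span a space of dimension at most `n ^ 2 + m ^ 2 + 1`, it vanishes on
the whole coset. Hence `tr A'(g₁) A'(x) - tr W(g₁) W(x) = κ' c(x) ^ (-u)` for all `x` in `N` (`N` small,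
`g₁ = g⁻¹`). The group algebra of `N` has an element which acts as `1` on `W` and on which the
character `c ^ (-u)` vanishes. So the non degenerate form `tr W(g₁) X Y` gives `dim A' ≥ m`, and
together with the form `tr A'(g₁) X Y` an isomorphism of the algebras of matrices spanned by `N`, which
is inner.
-/

set_option autoImplicit false

namespace Pool.Agent.Results.MP_1fe969_ag.TranscendentalPart

open NumberField IsDedekindDomain Filter Matrix Polynomial

/-- the absolute Galois group of the field `K`, with the Krull topology -/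
abbrev AbsGal (K : Type) [Field K] : Type := Gal(AlgebraicClosure K/K)

section
variable {K : Type} [Field K]

/-- `g` is an arithmetic Frobenius element at the ideal `Q` of the ring of all algebraic integers,
for a residue field with `q` elements of the place below `Q`. -/
def FrobeniusAt (Q : Ideal (𝓞 (AlgebraicClosure K))) (q : ℕ) (g : AbsGal K) : Prop :=
  ∀ x : 𝓞 (AlgebraicClosure K), g • x - x ^ q ∈ Q

/-- `Q` is a maximal ideal of the ring of all algebraic integers which lies above the finite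
place `v` of `K`. -/
def LiesAbove [NumberField K] (v : HeightOneSpectrum (𝓞 K))
    (Q : Ideal (𝓞 (AlgebraicClosure K))) : Prop :=
  Q.IsMaximal ∧ Q.comap (algebraMap (𝓞 K) (𝓞 (AlgebraicClosure K))) = v.asIdeal

/-- the matrix of `g` -/
noncomputable def mat {F : Type} [Field F] {n : ℕ} (ρ : AbsGal K →* GL (Fin n) F) (g : AbsGal K) :
    Matrix (Fin n) (Fin n) F :=
  (ρ g : GL (Fin n) F)

/-- the subspace `T` is stable under the elements of `H` -/
def Stable {F : Type} [Field F] {n : ℕ} (ρ : AbsGal K →* GL (Fin n) F) (H : Subgroup (AbsGal K))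
    (T : Submodule F (Fin n → F)) : Prop := ∀ g ∈ H, ∀ x ∈ T, mat ρ g *ᵥ x ∈ T

/-- The representation `ρ` is semisimple: every stable subspace has a stable complement. -/
def Semisimple {F : Type} [Field F] {n : ℕ} (ρ : AbsGal K →* GL (Fin n) F) : Prop :=
  ∀ S, Stable ρ ⊤ S → ∃ T, Stable ρ ⊤ T ∧ IsCompl S T

/-- The representation `ρ` is absolutely irreducible on every open subgroup: the matrices of the
elements of an open subgroup span the space of all matrices. -/
def StronglyIrreducible {F : Type} [Field F] {m : ℕ} (ρ : AbsGal K →* GL (Fin m) F) : Prop :=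
  ∀ H : Subgroup (AbsGal K), IsOpen (H : Set (AbsGal K)) →
    Submodule.span F {A | ∃ g ∈ H, A = mat ρ g} = ⊤

/-- the `ℓ`-adic cyclotomic character -/
noncomputable def cyclotomic (ℓ : ℕ) [Fact ℓ.Prime] (g : AbsGal K) : ℚ_[ℓ] :=
  ((cyclotomicCharacter (AlgebraicClosure K) ℓ
    (MulSemiringAction.toRingAut (AbsGal K) (AlgebraicClosure K) g) : ℤ_[ℓ]ˣ) : ℤ_[ℓ])

/-- The `ℓ`-adic representation `ρ` is the direct sum of the stable subspaces `A` and `A'`; the
dimension of `A'` is at most `m`, and an open subgroup acts on `A` as on `ℚ_ℓ(-u)`, that is, through the power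
`- u` of the cyclotomic character. -/
structure Decomposition {ℓ : ℕ} [Fact ℓ.Prime] {n : ℕ} (ρ : AbsGal K →* GL (Fin n) ℚ_[ℓ])
    (A A' : Submodule ℚ_[ℓ] (Fin n → ℚ_[ℓ])) (m : ℕ) (u : ℤ) : Prop where
  compl : IsCompl A A'
  stable : Stable ρ ⊤ A
  stable' : Stable ρ ⊤ A'
  dim : Module.finrank ℚ_[ℓ] A' ≤ m
  tate : ∃ H : Subgroup (AbsGal K), IsOpen (H : Set (AbsGal K)) ∧
    ∀ g ∈ H, ∀ x ∈ A, cyclotomic ℓ g ^ u • (mat ρ g *ᵥ x) = x

end

/-- The stable subspace `A'` of `ρ` is isomorphic to `η` as a representation of an open subgroup. -/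
def PotentiallyIsomorphic {K : Type} [Field K] {F : Type} [Field F] {n m : ℕ}
    (ρ : AbsGal K →* GL (Fin n) F) (A' : Submodule F (Fin n → F)) (η : AbsGal K →* GL (Fin m) F) :
    Prop :=
  ∃ H : Subgroup (AbsGal K), IsOpen (H : Set (AbsGal K)) ∧ ∃ e : (Fin m → F) ≃ₗ[F] A',
    ∀ g ∈ H, ∀ x, (e (mat η g *ᵥ x) : Fin n → F) = mat ρ g *ᵥ (e x : Fin n → F)

/-- The traces of the Frobenius elements on `V` and `W` are close to each other, with respect to the
weight `2 u`: outside a finite set `B` of places (and the places above `ℓ`) the difference of the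
traces of the geometric Frobenius elements at `v` on `V` and `W` is a rational number `a_v`, and
`a_v ^ 2 ≤ C N(v) ^ (2 u)`; for a positive integer `d`, the number `d a_v ^ 2` is an integral multiple
of `N(v) ^ (2 u)`, except for the places `v` in a set of lower density `≤ θ`, where `θ < 1`. -/
def CloseTraces {K : Type} [Field K] [NumberField K] {ℓ : ℕ} [Fact ℓ.Prime] {n m : ℕ}
    (V : AbsGal K →* GL (Fin n) ℚ_[ℓ]) (W : AbsGal K →* GL (Fin m) ℚ_[ℓ]) (u : ℤ) : Prop :=
  ∃ (B : Set (HeightOneSpectrum (𝓞 K))) (a : HeightOneSpectrum (𝓞 K) → ℚ) (C : ℝ) (d : ℕ) (θ : ℝ),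
    B.Finite ∧
    (∀ v, v ∉ B → (ℓ : 𝓞 K) ∉ v.asIdeal → ∀ Q, LiesAbove v Q →
      ∀ g, FrobeniusAt Q (Ideal.absNorm v.asIdeal) g →
        (mat V g⁻¹).trace - (mat W g⁻¹).trace = (a v : ℚ_[ℓ])) ∧
    (∀ v, v ∉ B → (a v : ℝ) ^ 2 ≤ C * (Ideal.absNorm v.asIdeal : ℝ) ^ (2 * u)) ∧
    0 < d ∧ θ < 1 ∧
    ∃ᶠ x : ℕ in atTop, ({v : HeightOneSpectrum (𝓞 K) | Ideal.absNorm v.asIdeal ≤ x ∧
      ¬ ∃ c : ℤ, (d : ℚ) * a v ^ 2 = (Ideal.absNorm v.asIdeal : ℚ) ^ (2 * u) * c}.ncard : ℝ) ≤
        θ * Nat.primeCounting x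

/-- **Semisimplicity of Frobenius on the cohomology with a given transcendental part.** -/
theorem result {K : Type} [Field K] [NumberField K] {ℓ : ℕ} [Fact ℓ.Prime] {n m : ℕ} (hm : 2 ≤ m)
    (V : AbsGal K →* GL (Fin n) ℚ_[ℓ]) (hV : Continuous V)
    (W : AbsGal K →* GL (Fin m) ℚ_[ℓ]) (hW : Continuous W) (u : ℤ) (hVW : CloseTraces V W u)
    (hirr : StronglyIrreducible W) (A A' : Submodule ℚ_[ℓ] (Fin n → ℚ_[ℓ]))
    (hA : Decomposition V A A' m u) :
    PotentiallyIsomorphic V A' W ∧ Semisimple V ∧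
    ∀ g : AbsGal K, Squarefree (minpoly ℚ_[ℓ] (mat W g)) →
      Squarefree (minpoly ℚ_[ℓ] (mat V g)) := by
  obtain ⟨B, a, C, d, θ, hB, htr, hC, hd, hθ, hdiv⟩ := hVW
  obtain ⟨H0, hH0o, hH0⟩ := hA.tate
  have hH0' : ∀ g ∈ H0, ∀ x ∈ A, Pool.Agent.R401.Tr9.mh V g *ᵥ x =
      Pool.Agent.R401.Sup3.cyc K ℓ ℚ_[ℓ] g ^ (-u) • x := by
    intro g hg x hx
    have h1 : Pool.Agent.R401.Sup3.cyc K ℓ ℚ_[ℓ] g ^ u •
        (Pool.Agent.R401.Tr9.mh V g *ᵥ x) = x := hH0 g hg x hx
    rw [_root_.zpow_neg, eq_inv_smul_iff₀ (zpow_ne_zero _ (Pool.Agent.R401.Sup.c_ne _ g))]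
    exact h1
  obtain ⟨g₁, κ, U, hUn, hUo, hUH, hU⟩ := Pool.Agent.J6H90.SL.coset V hV W hW B hB a u (by
      rintro v hv hℓ g ⟨Q, hQ, hQv, hg⟩
      exact htr v hv hℓ Q ⟨hQ, hQv⟩ g hg) C hC θ hθ hd (by
      refine (hdiv.and_eventually (Nat.tendsto_primeCounting.eventually_gt_atTop 0)).mono ?_
      rintro N ⟨h1, h3⟩
      have h4 : (0 : ℝ) < (Nat.primeCounting N : ℝ) := by exact_mod_cast h3
      unfold Pool.Agent.W401.Cheb.dens
      rw [div_le_iff₀ h4]
      exact h1) H0 hH0o
  have hspan : Submodule.span ℚ_[ℓ] (Set.range ((Pool.Agent.R401.Tr9.mh W).comp U.subtype)) = ⊤ := by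
    rw [← hirr U hUo]
    congr 1
    ext Z
    constructor
    · rintro ⟨g, rfl⟩
      exact ⟨g, g.2, rfl⟩
    · rintro ⟨g, hg, rfl⟩
      exact ⟨⟨g, hg⟩, rfl⟩
  have hdim : Module.finrank ℚ_[ℓ] A' = m := by
    obtain ⟨S, R, hRS, h1, h2, h3⟩ := Pool.Agent.J6H90.SL.exists_SR hA.compl rfl
    exact le_antisymm hA.dim (Pool.Agent.J6H90.SL.le_dim (V := Pool.Agent.R401.Tr9.mh V)
      (W := Pool.Agent.R401.Tr9.mh W) (A := A) (A' := A') hRS h1 h2 h3
      (fun g x hx => hA.stable' g (Subgroup.mem_top g) x hx)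
      (fun g hg x hx => hH0' g (hUH hg) x hx) hU hspan hm)
  obtain ⟨S, R, hRS, h1, h2, h3⟩ := Pool.Agent.J6H90.SL.exists_SR hA.compl hdim
  obtain ⟨S', R', hSR, hS', D⟩ := Pool.Agent.J6H90.SL.exists_dec (V := Pool.Agent.R401.Tr9.mh V)
    (W := Pool.Agent.R401.Tr9.mh W) (A := A) (A' := A') hRS h1 h2 h3
    (fun g x hx => hA.stable' g (Subgroup.mem_top g) x hx)
    (fun g hg x hx => hH0' g (hUH hg) x hx) hU hspan
  have h2' : ∀ x ∈ A', S' *ᵥ (R' *ᵥ x) = x := by
    intro x hx
    rw [Matrix.mulVec_mulVec, hSR, ← Matrix.mulVec_mulVec]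
    exact h2 x hx
  have h3' : ∀ x, x - S' *ᵥ (R' *ᵥ x) ∈ A := by
    intro x
    rw [Matrix.mulVec_mulVec, hSR, ← Matrix.mulVec_mulVec]
    exact h3 x
  have hfin : Finite (AbsGal K ⧸ U) := Subgroup.quotient_finite_of_isOpen _ hUo
  have hfi : U.FiniteIndex := Subgroup.finiteIndex_of_finite_quotient
  refine ⟨⟨U, hUo, ?_⟩, ?_, ?_⟩
  · let e : (Fin m → ℚ_[ℓ]) ≃ₗ[ℚ_[ℓ]] A' :=
      { toFun := fun y => ⟨S' *ᵥ y, hS' y⟩
        map_add' := fun x y => Subtype.ext (by
          change S' *ᵥ (x + y) = S' *ᵥ x + S' *ᵥ y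
          exact Matrix.mulVec_add _ _ _)
        map_smul' := fun c x => Subtype.ext (by
          change S' *ᵥ (c • x) = c • (S' *ᵥ x)
          exact Matrix.mulVec_smul _ _ _)
        invFun := fun x => R' *ᵥ (x : Fin n → ℚ_[ℓ])
        left_inv := fun y => by
          change R' *ᵥ (S' *ᵥ y) = y
          rw [Matrix.mulVec_mulVec, D.hRS, Matrix.one_mulVec]
        right_inv := fun x => Subtype.ext (h2' x x.2) }
    refine ⟨e, fun g hg x => ?_⟩
    change S' *ᵥ (mat W g *ᵥ x) = mat V g *ᵥ (S' *ᵥ x)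
    rw [Matrix.mulVec_mulVec, Matrix.mulVec_mulVec]
    exact congrArg (fun X => X *ᵥ x) (D.hS ⟨g, hg⟩).symm
  · intro T hT
    obtain ⟨C', hC', hc⟩ := Pool.Agent.J6H90.SL.semis (Pool.Agent.R401.Tr9.mh V) U D hA.compl
      hS' h2' h3' (fun g x hx => hA.stable g (Subgroup.mem_top g) x hx)
      (fun g x hx => hA.stable' g (Subgroup.mem_top g) x hx)
      (fun h x hx => hH0' h (hUH h.2) x hx) T (fun g x hx => hT g (Subgroup.mem_top g) x hx)
    exact ⟨C', fun g _ x hx => hC' g x hx, hc⟩
  · intro g hg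
    obtain ⟨M, hM, -, hgM⟩ := Subgroup.exists_pow_mem_of_index_ne_zero hfi.index_ne_zero g
    obtain ⟨p, hp, hqp, hpc⟩ := Pool.Agent.J6H90.SF.exists_p hg M
      (Pool.Agent.J6H90.SL.chr u U ⟨g ^ M, hgM⟩)
    have hW0 : aeval (Pool.Agent.R401.Tr9.mh W (g ^ M)) p = 0 := by
      obtain ⟨e, he⟩ := hqp
      rw [map_pow, ← expand_aeval, he, map_mul]
      have h4 : aeval (Pool.Agent.R401.Tr9.mh W g) (minpoly ℚ_[ℓ] (mat W g)) = 0 :=
        minpoly.aeval _ _
      rw [h4, zero_mul]
    have hV0 := Pool.Agent.J6H90.SL.kill D ⟨g ^ M, hgM⟩ p hW0 hpc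
    obtain ⟨q, hq, hqV⟩ := Pool.Agent.J6H90.SF.root ℚ_[ℓ] n 1 M (Pool.Agent.R401.Tr9.mh V g) p
      hM ⟨⟨Pool.Agent.R401.Tr9.mh V g, Pool.Agent.R401.Tr9.mh V g⁻¹,
        by rw [← map_mul, mul_inv_cancel, map_one], by rw [← map_mul, inv_mul_cancel, map_one]⟩,
        rfl⟩ hp (by
        rw [pow_one, ← map_pow]
        exact hV0)
    rw [pow_one] at hqV
    exact hq.squarefree_of_dvd (minpoly.dvd _ _ hqV)

end Pool.Agent.Results.MP_1fe969_ag.TranscendentalPart
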